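import Pool.Agent.Helper32.AG.Goals

/-!
Project AG, packet N1.
-/

set_option autoImplicit false

namespace Pool.Agent.Helper36.AG

open Pool.Agent.Helper32.AG

lemma sq_le_pow (r : ℕ) (hr : 1 ≤ r) : 9 * r ^ 2 ≤ 4 * 3 ^ r := by
  rcases Nat.lt_or_ge r 2 with h | h
  · interval_cases r; norm_num
  · induction r, h using Nat.le_induction with
    | base => norm_num
    | succ n hn ih =>
      have h1 := ih (by omega)
      have e : 3 ^ (n + 1) = 3 * 3 ^ n := by ring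
      rw [e]
      nlinarith

/-- the inequality for the exponents, `s = t + 4` -/
lemma pow_aux (t : ℕ) : 2 * (t + 4) ^ 2 * (t + 3) * 4 ^ (t + 4) ≤ 3 ^ (3 * t + 10) := by
  induction t with
  | zero => norm_num
  | succ n ih =>
    have e1 : 4 ^ (n + 1 + 4) = 4 * 4 ^ (n + 4) := by ring
    have e2 : 3 ^ (3 * (n + 1) + 10) = 27 * 3 ^ (3 * n + 10) := by ring
    rw [e1, e2]
    have h : 4 * (2 * (n + 1 + 4) ^ 2 * (n + 1 + 3)) ≤ 27 * (2 * (n + 4) ^ 2 * (n + 3)) := by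
      nlinarith [Nat.zero_le n, Nat.zero_le (n ^ 2), Nat.zero_le (n ^ 3)]
    calc 2 * (n + 1 + 4) ^ 2 * (n + 1 + 3) * (4 * 4 ^ (n + 4))
        = (4 * (2 * (n + 1 + 4) ^ 2 * (n + 1 + 3))) * 4 ^ (n + 4) := by ring
      _ ≤ (27 * (2 * (n + 4) ^ 2 * (n + 3))) * 4 ^ (n + 4) := Nat.mul_le_mul_right _ h
      _ = 27 * (2 * (n + 4) ^ 2 * (n + 3) * 4 ^ (n + 4)) := by ring
      _ ≤ 27 * 3 ^ (3 * n + 10) := Nat.mul_le_mul_left _ ih

/-- `3 ^ (s + 1) w ^ (2 s - 3) ≥ 2 s ^ 2 (s - 1) (w + 1) ^ s`, `s = t + 3` -/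
lemma star (t w : ℕ) (hw : 3 ≤ w) (h : 1 ≤ t ∨ 4 ≤ w) :
    2 * (t + 3) ^ 2 * (t + 2) * (w + 1) ^ (t + 3) ≤ 3 ^ (t + 4) * w ^ (2 * t + 3) := by
  rcases Nat.eq_zero_or_pos t with rfl | ht
  · have hw4 : 4 ≤ w := by omega
    simp only [Nat.zero_add, Nat.mul_zero]
    have h1 : 4 * (w + 1) ≤ 5 * w := by omega
    have h2 : (4 * (w + 1)) ^ 3 ≤ (5 * w) ^ 3 := Nat.pow_le_pow_left h1 3
    have h3 : (4 * (w + 1)) ^ 3 = 64 * (w + 1) ^ 3 := by ring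
    have h4 : (5 * w) ^ 3 = 125 * w ^ 3 := by ring
    rw [h3, h4] at h2
    norm_num
    omega
  · obtain ⟨n, rfl⟩ : ∃ n, t = n + 1 := ⟨t - 1, by omega⟩
    have h1 : 3 * (w + 1) ≤ 4 * w := by omega
    have h2 : (3 * (w + 1)) ^ (n + 4) ≤ (4 * w) ^ (n + 4) := Nat.pow_le_pow_left h1 _
    rw [mul_pow, mul_pow] at h2
    have h3 := pow_aux n
    have h4 : 3 ^ (n + 1) ≤ w ^ (n + 1) := Nat.pow_le_pow_left hw _
    have h5 : (2 * (n + 4) ^ 2 * (n + 3) * (w + 1) ^ (n + 4)) * 3 ^ (n + 4)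
        ≤ (3 ^ (n + 5) * w ^ (2 * n + 5)) * 3 ^ (n + 4) := by
      calc (2 * (n + 4) ^ 2 * (n + 3) * (w + 1) ^ (n + 4)) * 3 ^ (n + 4)
          = 2 * (n + 4) ^ 2 * (n + 3) * (3 ^ (n + 4) * (w + 1) ^ (n + 4)) := by ring
        _ ≤ 2 * (n + 4) ^ 2 * (n + 3) * (4 ^ (n + 4) * w ^ (n + 4)) := Nat.mul_le_mul_left _ h2
        _ = (2 * (n + 4) ^ 2 * (n + 3) * 4 ^ (n + 4)) * w ^ (n + 4) := by ring
        _ ≤ 3 ^ (3 * n + 10) * w ^ (n + 4) := Nat.mul_le_mul_right _ h3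
        _ = (3 ^ (n + 5) * w ^ (n + 4) * 3 ^ (n + 4)) * 3 ^ (n + 1) := by ring
        _ ≤ (3 ^ (n + 5) * w ^ (n + 4) * 3 ^ (n + 4)) * w ^ (n + 1) := Nat.mul_le_mul_left _ h4
        _ = (3 ^ (n + 5) * w ^ (2 * n + 5)) * 3 ^ (n + 4) := by ring
    have h6 := Nat.le_of_mul_le_mul_right h5 (by positivity)
    have e1 : n + 1 + 3 = n + 4 := by ring
    have e2 : n + 1 + 2 = n + 3 := by ring
    have e3 : n + 1 + 4 = n + 5 := by ring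
    have e4 : 2 * (n + 1) + 3 = 2 * n + 5 := by ring
    rw [e1, e2, e3, e4]
    exact h6

theorem n1 : N1Stmt := by
  intro s w κ c1 c2 r hs hw hκ hc1 hc2 hr h1 h2 h3
  obtain ⟨t, rfl⟩ : ∃ t, s = t + 3 := ⟨s - 3, by omega⟩
  by_cases hsp : t = 0 ∧ w = 3
  · obtain ⟨rfl, rfl⟩ := hsp
    have h4 : 4 ≤ c1 + c2 + r := by
      by_contra hcon
      have a1 : c1 = 1 := by omega
      have a3 : r = 1 := by omega
      subst a1 a3
      norm_num at h1 h3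
      omega
    calc (3 + 1) ^ (0 + 3) ≤ 3 ^ 4 := by norm_num
      _ ≤ 3 ^ (c1 + c2 + r + (0 + 3 - 3)) := Nat.pow_le_pow_right (by norm_num) (by omega)
  have hst := star t w hw (by omega)
  have hr2 := sq_le_pow r hr
  have hC : 2 * (t + 3).choose 2 = (t + 3) * (t + 2) := by
    have h := Nat.choose_two_right (t + 3)
    have h' : 2 ∣ (t + 3) * (t + 3 - 1) := (Nat.even_mul_pred_self (t + 3)).two_dvd
    rw [h, Nat.mul_div_cancel' h']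
    rfl
  set C := (t + 3).choose 2 with hCdef
  set P := 3 ^ c1 with hP
  set Q := 3 ^ c2 with hQ
  set R := 3 ^ r with hR
  have hw0 : 0 < w := by omega
  -- multiply
  have m1 : 9 * κ ^ 2 ≤ P * Q * (t + 3) * C * w ^ 3 := by
    calc 9 * κ ^ 2 = (3 * κ) * (3 * κ) := by ring
      _ ≤ (P * ((t + 3) * w)) * (Q * (C * w ^ 2)) := Nat.mul_le_mul h1 h2
      _ = P * Q * (t + 3) * C * w ^ 3 := by ring
  have m2 : (w ^ (t + 3)) ^ 2 ≤ (r * κ) ^ 2 := Nat.pow_le_pow_left h3 2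
  have m3 : 81 * w ^ (2 * t + 3) * w ^ 3 ≤ (2 * (t + 3) ^ 2 * (t + 2) * (P * Q * R)) * w ^ 3 := by
    calc 81 * w ^ (2 * t + 3) * w ^ 3 = 81 * (w ^ (t + 3)) ^ 2 := by ring
      _ ≤ 81 * (r * κ) ^ 2 := Nat.mul_le_mul_left _ m2
      _ = (9 * r ^ 2) * (9 * κ ^ 2) := by ring
      _ ≤ (4 * R) * (P * Q * (t + 3) * C * w ^ 3) := Nat.mul_le_mul hr2 m1
      _ = (2 * (t + 3) * (2 * C) * (P * Q * R)) * w ^ 3 := by ring
      _ = (2 * (t + 3) ^ 2 * (t + 2) * (P * Q * R)) * w ^ 3 := by rw [hC]; ring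
  have m4 := Nat.le_of_mul_le_mul_right m3 (by positivity)
  have m5 : 2 * (t + 3) ^ 2 * (t + 2) * (w + 1) ^ (t + 3)
      ≤ 2 * (t + 3) ^ 2 * (t + 2) * (3 ^ t * (P * Q * R)) := by
    calc 2 * (t + 3) ^ 2 * (t + 2) * (w + 1) ^ (t + 3) ≤ 3 ^ (t + 4) * w ^ (2 * t + 3) := hst
      _ = 3 ^ t * (81 * w ^ (2 * t + 3)) := by ring
      _ ≤ 3 ^ t * (2 * (t + 3) ^ 2 * (t + 2) * (P * Q * R)) := Nat.mul_le_mul_left _ m4
      _ = 2 * (t + 3) ^ 2 * (t + 2) * (3 ^ t * (P * Q * R)) := by ring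
  have m6 := Nat.le_of_mul_le_mul_left m5 (by positivity)
  calc (w + 1) ^ (t + 3) ≤ 3 ^ t * (P * Q * R) := m6
    _ = 3 ^ (c1 + c2 + r + (t + 3 - 3)) := by
      rw [hP, hQ, hR, Nat.add_sub_cancel, pow_add, pow_add, pow_add]; ring

end Pool.Agent.Helper36.AG
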